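import Mathlib

/-!
# A finite commutative associative ring without a finite basis of quasi-identities

For every odd prime `p` the ring `A_p = 𝔽_p × 𝔽_p` with `(a, b)(c, d) = (0, a c)`
(that is, the ideal `x 𝔽_p[x]/(x³)`) is commutative, associative, of order `p²`, hence both
alternative and Jordan, and it has no finite basis of quasi-identities.

Proof. For `m > N` let `E` be the field with `p ^ m` elements and let
`R = E^* × (𝔽_p^E / K)`, where `K` is the space of the functions `x ↦ Tr (c x²)`, with the product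
`(α, s)(β, t) = (0, [α β])`. Every map `R → A_p` compatible with the operations kills `R²`, because
the only common zero of the quadratic forms `Tr (c x²)` is `0`; but `R² ≠ 0`. On the other hand a
nonzero form `Tr (c x²)` is nondegenerate, so it is not invariant under any translation by
`y ≠ 0`; therefore each subring generated by at most `N` elements embeds in a power of `A_p`, and
`R` satisfies all quasi-identities of `A_p` in at most `N` variables.
-/

namespace Pool.Agent.Results.MP_db5ef1_al.NoFiniteQuasiBasis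

/-- Terms in the signature `{+, -, 0, ·}` in the variables `x_0, x_1, …`. -/
inductive Term : Type
  | var (n : ℕ) : Term
  | zero : Term
  | add (s t : Term) : Term
  | neg (s : Term) : Term
  | mul (s t : Term) : Term

/-- The value of a term in a (not necessarily associative) ring. -/
def Term.eval {A : Type*} [NonUnitalNonAssocRing A] (v : ℕ → A) : Term → A
  | .var n => v n
  | .zero => 0
  | .add s t => s.eval v + t.eval v
  | .neg s => - s.eval v
  | .mul s t => s.eval v * t.eval v

/-- A quasi-identity `s₁ = t₁ ∧ … ∧ s_n = t_n → s = t`. -/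
structure QuasiIdentity where
  /-- the equations `s_i = t_i` -/
  prem : List (Term × Term)
  /-- the equation `s = t` -/
  concl : Term × Term

/-- The quasi-identity is true in the ring `A`. -/
def QuasiIdentity.Holds (q : QuasiIdentity) (A : Type*) [NonUnitalNonAssocRing A] : Prop :=
  ∀ v : ℕ → A, (∀ e ∈ q.prem, e.1.eval v = e.2.eval v) → q.concl.1.eval v = q.concl.2.eval v

/-- `S` is a basis of quasi-identities of the ring `A`. -/
def IsQuasiBasis (S : Set QuasiIdentity) (A : Type) [NonUnitalNonAssocRing A] : Prop :=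
  (∀ q ∈ S, q.Holds A) ∧
    ∀ q : QuasiIdentity, q.Holds A →
      ∀ (B : Type) [NonUnitalNonAssocRing B], (∀ s ∈ S, s.Holds B) → q.Holds B

/-- The ring `A` has a finite basis of quasi-identities. -/
def HasFiniteQuasiBasis (A : Type) [NonUnitalNonAssocRing A] : Prop :=
  ∃ S : Set QuasiIdentity, S.Finite ∧ IsQuasiBasis S A

/-- Alternative rings. -/
def IsAlternative (A : Type) [NonUnitalNonAssocRing A] : Prop :=
  ∀ x y : A, (x * x) * y = x * (x * y) ∧ (y * x) * x = y * (x * x)

/-- (Linear) Jordan rings. -/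
def IsJordanRing (A : Type) [NonUnitalNonAssocRing A] : Prop :=
  ∀ x y : A, x * y = y * x ∧ ((x * x) * y) * x = (x * x) * (y * x)

/-- The ring `A_p`: pairs `(a, b)` of residues mod `p`, with product `(a, b)(c, d) = (0, a c)`. -/
def Nil (p : ℕ) : Type := ZMod p × ZMod p

section Nil
variable (p : ℕ)

instance : AddCommGroup (Nil p) := inferInstanceAs (AddCommGroup (ZMod p × ZMod p))

instance : NonUnitalNonAssocRing (Nil p) where
  mul a b := (0, a.1 * b.1)
  left_distrib a b c := by
    change ((0 : ZMod p), a.1 * (b.1 + c.1)) = ((0 : ZMod p) + 0, a.1 * b.1 + a.1 * c.1)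
    rw [mul_add, add_zero]
  right_distrib a b c := by
    change ((0 : ZMod p), (a.1 + b.1) * c.1) = ((0 : ZMod p) + 0, a.1 * c.1 + b.1 * c.1)
    rw [add_mul, add_zero]
  zero_mul a := by
    change ((0 : ZMod p), (0 : ZMod p) * a.1) = ((0 : ZMod p), (0 : ZMod p))
    rw [zero_mul]
  mul_zero a := by
    change ((0 : ZMod p), a.1 * (0 : ZMod p)) = ((0 : ZMod p), (0 : ZMod p))
    rw [mul_zero]

theorem Nil.mul_def (a b : Nil p) : a * b = ((0, a.1 * b.1) : ZMod p × ZMod p) := rfl

theorem Nil.mul_comm' (a b : Nil p) : a * b = b * a := by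
  rw [Nil.mul_def, Nil.mul_def, mul_comm]

theorem Nil.mul_mul_left (a b c : Nil p) : (a * b) * c = 0 := by
  rw [Nil.mul_def, Nil.mul_def]
  change ((0 : ZMod p), (0 : ZMod p) * c.1) = 0
  rw [zero_mul]; rfl

theorem Nil.mul_mul_right (a b c : Nil p) : a * (b * c) = 0 := by
  rw [Nil.mul_comm', Nil.mul_mul_left]

end Nil

/-! ### Variables occurring in terms -/

/-- All variables of the term have index below this bound. -/
def Term.bd : Term → ℕ
  | .var n => n + 1
  | .zero => 0
  | .add s t => max s.bd t.bd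
  | .neg s => s.bd
  | .mul s t => max s.bd t.bd

theorem Term.eval_congr {A : Type*} [NonUnitalNonAssocRing A] {v w : ℕ → A} {N : ℕ}
    (h : ∀ n < N, v n = w n) : ∀ t : Term, t.bd ≤ N → t.eval v = t.eval w
  | .var n, ht => h n ht
  | .zero, _ => rfl
  | .add s t, ht => by
    have h1 := Term.eval_congr h s ((le_max_left _ _).trans ht)
    have h2 := Term.eval_congr h t ((le_max_right _ _).trans ht)
    simp only [Term.eval, h1, h2]
  | .neg s, ht => by
    have h1 := Term.eval_congr h s ht
    simp only [Term.eval, h1]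
  | .mul s t, ht => by
    have h1 := Term.eval_congr h s ((le_max_left _ _).trans ht)
    have h2 := Term.eval_congr h t ((le_max_right _ _).trans ht)
    simp only [Term.eval, h1, h2]

/-- All variables of the quasi-identity have index below this bound. -/
def QuasiIdentity.bd (q : QuasiIdentity) : ℕ :=
  (q.prem.map (fun e => max e.1.bd e.2.bd)).sum + max q.concl.1.bd q.concl.2.bd

theorem QuasiIdentity.le_bd (q : QuasiIdentity) (e : Term × Term) (he : e ∈ q.prem) :
    e.1.bd ≤ q.bd ∧ e.2.bd ≤ q.bd := by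
  have h : max e.1.bd e.2.bd ≤ (q.prem.map (fun e => max e.1.bd e.2.bd)).sum :=
    List.single_le_sum (by simp) _ (List.mem_map_of_mem he)
  unfold QuasiIdentity.bd
  omega

theorem QuasiIdentity.concl_le_bd (q : QuasiIdentity) :
    q.concl.1.bd ≤ q.bd ∧ q.concl.2.bd ≤ q.bd := by
  unfold QuasiIdentity.bd
  omega

/-! ### The rings `R` -/

section Model

variable (p m : ℕ) [Fact p.Prime]

/-- The field with `p ^ m` elements. -/
abbrev E : Type := GaloisField p m

/-- `c ↦ (x ↦ Tr (c x²))`. -/
noncomputable def quadL : E p m →ₗ[ZMod p] (E p m → ZMod p) :=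
  LinearMap.pi (fun x => (Algebra.trace (ZMod p) (E p m)).comp
    (LinearMap.mulRight (ZMod p) (x * x)))

theorem quadL_apply (c x : E p m) :
    quadL p m c x = Algebra.trace (ZMod p) (E p m) (c * (x * x)) := rfl

/-- The space of quadratic forms `Tr (c x²)`. -/
noncomputable def K : Submodule (ZMod p) (E p m → ZMod p) := LinearMap.range (quadL p m)

/-- The ring `R`. -/
def R : Type := (E p m →ₗ[ZMod p] ZMod p) × ((E p m → ZMod p) ⧸ K p m)

noncomputable instance : AddCommGroup (R p m) :=
  inferInstanceAs (AddCommGroup ((E p m →ₗ[ZMod p] ZMod p) × ((E p m → ZMod p) ⧸ K p m)))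

instance : Finite (R p m) := by
  have h1 : Finite (E p m →ₗ[ZMod p] ZMod p) := DFunLike.finite _
  have h2 : Finite ((E p m → ZMod p) ⧸ K p m) := Quotient.finite _
  exact inferInstanceAs (Finite ((E p m →ₗ[ZMod p] ZMod p) × ((E p m → ZMod p) ⧸ K p m)))

/-- The class of the function `α β`. -/
noncomputable def cls (α β : E p m →ₗ[ZMod p] ZMod p) : (E p m → ZMod p) ⧸ K p m :=
  (K p m).mkQ (fun x => α x * β x)

noncomputable instance : NonUnitalNonAssocRing (R p m) where
  mul a b := (0, cls p m a.1 b.1)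
  left_distrib a b c := by
    change ((0 : E p m →ₗ[ZMod p] ZMod p), cls p m a.1 (b.1 + c.1))
      = ((0 : E p m →ₗ[ZMod p] ZMod p) + 0, cls p m a.1 b.1 + cls p m a.1 c.1)
    rw [add_zero]
    congr 1
    unfold cls
    rw [← map_add]
    congr 1
    ext x
    simp [mul_add]
  right_distrib a b c := by
    change ((0 : E p m →ₗ[ZMod p] ZMod p), cls p m (a.1 + b.1) c.1)
      = ((0 : E p m →ₗ[ZMod p] ZMod p) + 0, cls p m a.1 c.1 + cls p m b.1 c.1)
    rw [add_zero]
    congr 1
    unfold cls
    rw [← map_add]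
    congr 1
    ext x
    simp [add_mul]
  zero_mul a := by
    change ((0 : E p m →ₗ[ZMod p] ZMod p), cls p m 0 a.1)
      = ((0 : E p m →ₗ[ZMod p] ZMod p), (0 : (E p m → ZMod p) ⧸ K p m))
    congr 1
    unfold cls
    rw [← map_zero (K p m).mkQ]
    congr 1
    ext x
    simp
  mul_zero a := by
    change ((0 : E p m →ₗ[ZMod p] ZMod p), cls p m a.1 0)
      = ((0 : E p m →ₗ[ZMod p] ZMod p), (0 : (E p m → ZMod p) ⧸ K p m))
    congr 1
    unfold cls
    rw [← map_zero (K p m).mkQ]
    congr 1
    ext x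
    simp

theorem R.mul_def (a b : R p m) : a * b = ((0, cls p m a.1 b.1) :
    (E p m →ₗ[ZMod p] ZMod p) × ((E p m → ZMod p) ⧸ K p m)) := rfl

variable {p m}

theorem eq_zero_of_trace {c : E p m}
    (h : ∀ x : E p m, Algebra.trace (ZMod p) (E p m) (c * x) = 0) : c = 0 := by
  have hn := traceForm_nondegenerate (ZMod p) (E p m)
  exact hn.1 c (fun x => by simpa [Algebra.traceForm_apply] using h x)

theorem two_ne (hp : p ≠ 2) : (2 : ZMod p) ≠ 0 := by
  intro h
  have h1 : ((2 : ℕ) : ZMod p) = 0 := by exact_mod_cast h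
  rw [ZMod.natCast_eq_zero_iff] at h1
  have h2 := (Nat.prime_dvd_prime_iff_eq (Fact.out : p.Prime) Nat.prime_two).mp h1
  exact hp h2

/-- A nonzero form `Tr (c x²)` is not invariant under a nontrivial translation. -/
theorem eq_zero_of_invariant (hp : p ≠ 2) {c y : E p m} (hy : y ≠ 0)
    (h : ∀ x : E p m, quadL p m c (x + y) = quadL p m c x) : c = 0 := by
  have h0 : Algebra.trace (ZMod p) (E p m) (c * (y * y)) = 0 := by
    have := h 0
    simpa [quadL_apply] using this
  have h1 : ∀ x : E p m, Algebra.trace (ZMod p) (E p m) ((c * y) * x) = 0 := by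
    intro x
    have h2 := h x
    rw [quadL_apply, quadL_apply] at h2
    have h3 : c * ((x + y) * (x + y)) = c * (x * x) + ((c * y) * x + (c * y) * x) + c * (y * y) := by
      ring
    rw [h3, map_add, map_add, map_add, h0, add_zero, add_eq_left, ← two_mul] at h2
    exact (mul_eq_zero.mp h2).resolve_left (two_ne hp)
  have h2 := eq_zero_of_trace h1
  exact (mul_eq_zero.mp h2).resolve_right hy

/-- Every map `R → A_p` compatible with the operations kills the products. -/
theorem hom_kills (φ : R p m → Nil p) (hadd : ∀ r s, φ (r + s) = φ r + φ s)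
    (hmul : ∀ r s, φ (r * s) = φ r * φ s) (r s : R p m) : φ (r * s) = 0 := by
  classical
  let a : R p m →+ ZMod p := AddMonoidHom.mk' (fun r => (φ r).1) (fun r s => by
    change (φ (r + s)).1 = (φ r).1 + (φ s).1
    rw [hadd]; rfl)
  let b : R p m →+ ZMod p := AddMonoidHom.mk' (fun r => (φ r).2) (fun r s => by
    change (φ (r + s)).2 = (φ r).2 + (φ s).2
    rw [hadd]; rfl)
  have hb : ∀ r s : R p m, b (r * s) = a r * a s := by
    intro r s
    change (φ (r * s)).2 = (φ r).1 * (φ s).1
    rw [hmul]; rfl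
  let inl : (E p m →ₗ[ZMod p] ZMod p) →+ R p m :=
    AddMonoidHom.inl (E p m →ₗ[ZMod p] ZMod p) ((E p m → ZMod p) ⧸ K p m)
  let inr : ((E p m → ZMod p) ⧸ K p m) →+ R p m :=
    AddMonoidHom.inr (E p m →ₗ[ZMod p] ZMod p) ((E p m → ZMod p) ⧸ K p m)
  let aV : Module.Dual (ZMod p) (Module.Dual (ZMod p) (E p m)) :=
    (a.comp inl).toZModLinearMap p
  let x0 : E p m := (Module.evalEquiv (ZMod p) (E p m)).symm aV
  have hx0 : ∀ α : E p m →ₗ[ZMod p] ZMod p, a (inl α) = α x0 := by
    intro α
    have h1 : Module.evalEquiv (ZMod p) (E p m) x0 = aV := LinearEquiv.apply_symm_apply _ _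
    have h2 : (Module.evalEquiv (ZMod p) (E p m) x0) α = aV α := by rw [h1]
    have h3 : (Module.evalEquiv (ZMod p) (E p m) x0) α = α x0 := rfl
    rw [h3] at h2
    exact h2.symm
  -- the quadratic forms vanish at `x0`
  have hq : ∀ c : E p m, Algebra.trace (ZMod p) (E p m) (c * (x0 * x0)) = 0 := by
    intro c
    let B := Module.finBasis (ZMod p) (E p m)
    let g : Fin (Module.finrank (ZMod p) (E p m)) → (E p m →ₗ[ZMod p] ZMod p) :=
      fun j => (Algebra.trace (ZMod p) (E p m)).comp (LinearMap.mulLeft (ZMod p) (c * B j))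
    have hrep : ∀ x : E p m, ∑ j, B.coord j x * g j x
        = Algebra.trace (ZMod p) (E p m) (c * (x * x)) := by
      intro x
      have h1 : ∀ j, B.coord j x * g j x
          = Algebra.trace (ZMod p) (E p m) (c * ((B.coord j x) • B j) * x) := by
        intro j
        have : c * ((B.coord j x) • B j) * x = (B.coord j x) • (c * B j * x) := by
          rw [mul_smul_comm, smul_mul_assoc]
        rw [this, map_smul, smul_eq_mul]
        rfl
      rw [Finset.sum_congr rfl (fun j _ => h1 j), ← map_sum, ← Finset.sum_mul, ← Finset.mul_sum]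
      have h2 : ∑ j, (B.coord j x) • B j = x := B.sum_repr x
      rw [h2, mul_assoc]
    have hsum : ∑ j, inl (B.coord j) * inl (g j) = 0 := by
      have h1 : ∀ j, inl (B.coord j) * inl (g j) = inr (cls p m (B.coord j) (g j)) := fun j => rfl
      rw [Finset.sum_congr rfl (fun j _ => h1 j), ← map_sum]
      have h2 : ∑ j, cls p m (B.coord j) (g j) = 0 := by
        unfold cls
        rw [← map_sum]
        have h3 : (∑ j, fun x => B.coord j x * g j x) = quadL p m c := by
          ext x
          rw [Finset.sum_apply, hrep x, quadL_apply]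
        rw [h3]
        exact (Submodule.Quotient.mk_eq_zero _).mpr ⟨c, rfl⟩
      rw [h2, map_zero]
    have h4 : ∑ j, b (inl (B.coord j) * inl (g j)) = 0 := by
      rw [← map_sum, hsum, map_zero]
    rw [← hrep x0, ← h4]
    refine Finset.sum_congr rfl (fun j _ => ?_)
    rw [hb, hx0, hx0]
  have hx00 : x0 = 0 := by
    have h1 : x0 * x0 = 0 := by
      apply eq_zero_of_trace
      intro c
      rw [mul_comm]
      exact hq c
    exact mul_self_eq_zero.mp h1
  have ha : ∀ r : R p m, a r = 0 := by
    intro r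
    have h1 : r = inl r.1 + inr r.2 := by
      change r = ((r.1 + 0, 0 + r.2) : (E p m →ₗ[ZMod p] ZMod p) × ((E p m → ZMod p) ⧸ K p m))
      rw [add_zero, zero_add]; rfl
    have h2 : inr r.2 * inr r.2 = 0 := by
      change ((0, cls p m 0 0) : (E p m →ₗ[ZMod p] ZMod p) × ((E p m → ZMod p) ⧸ K p m)) = 0
      have : cls p m 0 0 = 0 := by
        unfold cls
        rw [← map_zero (K p m).mkQ]
        congr 1
        ext x
        simp
      rw [this]; rfl
    have h3 : a (inr r.2) = 0 := by
      have h4 := hb (inr r.2) (inr r.2)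
      rw [h2, map_zero] at h4
      exact mul_self_eq_zero.mp h4.symm
    rw [h1, map_add, h3, hx0, hx00, map_zero, add_zero]
  rw [hmul, Nil.mul_def]
  have h5 : (φ r).1 = 0 := ha r
  rw [h5, zero_mul]; rfl

/-- The ring `R` has a nonzero product. -/
theorem exists_mul_ne_zero (hp : p ≠ 2) (hm : 2 ≤ m) : ∃ r s : R p m, r * s ≠ 0 := by
  have hfr : Module.finrank (ZMod p) (E p m) = m := GaloisField.finrank p (by omega)
  obtain ⟨c0, hc0⟩ : ∃ c : E p m, Algebra.trace (ZMod p) (E p m) c ≠ 0 := by
    by_contra h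
    push Not at h
    have : (1 : E p m) = 0 := eq_zero_of_trace (fun x => h _)
    exact one_ne_zero this
  let α : E p m →ₗ[ZMod p] ZMod p := Algebra.trace (ZMod p) (E p m)
  obtain ⟨y, hyk, hy0⟩ : ∃ y ∈ LinearMap.ker α, y ≠ 0 := by
    apply Submodule.exists_mem_ne_zero_of_ne_bot
    apply LinearMap.ker_ne_bot_of_finrank_lt
    rw [hfr, Module.finrank_self]
    omega
  have hy : α y = 0 := hyk
  refine ⟨((α, 0) : (E p m →ₗ[ZMod p] ZMod p) × ((E p m → ZMod p) ⧸ K p m)),
    ((α, 0) : (E p m →ₗ[ZMod p] ZMod p) × ((E p m → ZMod p) ⧸ K p m)), ?_⟩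
  intro h
  have h1 : cls p m α α = 0 := congrArg Prod.snd h
  have h2 : (fun x => α x * α x) ∈ K p m := (Submodule.Quotient.mk_eq_zero _).mp h1
  obtain ⟨c, hc⟩ := h2
  have h3 : c = 0 := by
    apply eq_zero_of_invariant hp hy0
    intro x
    rw [hc]
    change α (x + y) * α (x + y) = α x * α x
    rw [map_add, hy, add_zero]
  have h4 : α c0 * α c0 = 0 := by
    have h5 := congrFun hc c0
    rw [h3, map_zero] at h5
    exact h5.symm
  exact hc0 (mul_self_eq_zero.mp h4)

/-- The functions invariant under the translation by `y`. -/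
def P (y : E p m) : Submodule (ZMod p) (E p m → ZMod p) where
  carrier := {f | ∀ x, f (x + y) = f x}
  add_mem' := fun {f g} hf hg x => by
    change f (x + y) + g (x + y) = f x + g x
    rw [hf x, hg x]
  zero_mem' := fun x => rfl
  smul_mem' := fun c f hf x => by
    change c • f (x + y) = c • f x
    rw [hf x]

theorem inj_P (hp : p ≠ 2) {y : E p m} (hy : y ≠ 0) :
    LinearMap.ker ((K p m).mkQ.comp (P y).subtype) = ⊥ := by
  rw [Submodule.eq_bot_iff]
  rintro ⟨f, hf⟩ h
  have h1 : (K p m).mkQ f = 0 := h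
  obtain ⟨c, hc⟩ : f ∈ K p m := (Submodule.Quotient.mk_eq_zero _).mp h1
  have h2 : c = 0 := by
    apply eq_zero_of_invariant hp hy
    intro x
    rw [hc]
    exact hf x
  apply Subtype.ext
  change f = 0
  rw [← hc, h2, map_zero]

theorem exists_functional (hp : p ≠ 2) {y : E p m} (hy : y ≠ 0) (x : E p m) :
    ∃ b : ((E p m → ZMod p) ⧸ K p m) →ₗ[ZMod p] ZMod p,
      ∀ f ∈ P y, b ((K p m).mkQ f) = f x := by
  obtain ⟨g, hg⟩ := LinearMap.exists_leftInverse_of_injective _ (inj_P (p := p) (m := m) hp hy)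
  refine ⟨((LinearMap.proj x : (E p m → ZMod p) →ₗ[ZMod p] ZMod p).comp (P y).subtype).comp g, ?_⟩
  intro f hf
  have h1 : g ((K p m).mkQ f) = ⟨f, hf⟩ := by
    have h2 := LinearMap.congr_fun hg ⟨f, hf⟩
    exact h2
  change ((g ((K p m).mkQ f) : P y) : E p m → ZMod p) x = f x
  rw [h1]

/-- The map `(α, s) ↦ (α x, b s)`. -/
noncomputable def pr (x : E p m) (b : ((E p m → ZMod p) ⧸ K p m) →ₗ[ZMod p] ZMod p) (r : R p m) : Nil p :=
  (r.1 x, b r.2)

/-- Evaluation of terms commutes with the partial homomorphisms `(α, s) ↦ (α x, b s)`. -/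
theorem eval_hom {y x : E p m} {b : ((E p m → ZMod p) ⧸ K p m) →ₗ[ZMod p] ZMod p}
    (hb : ∀ α β : E p m →ₗ[ZMod p] ZMod p, α y = 0 → β y = 0 →
      b (cls p m α β) = α x * β x)
    {v : ℕ → R p m} (hv : ∀ n, (v n).1 y = 0) :
    ∀ t : Term, (t.eval v).1 y = 0 ∧
      t.eval (fun n => pr x b (v n)) = pr x b (t.eval v)
  | .var n => ⟨hv n, rfl⟩
  | .zero => by
    refine ⟨rfl, ?_⟩
    change ((0 : ZMod p), (0 : ZMod p)) = ((0 : E p m →ₗ[ZMod p] ZMod p) x, b 0)
    rw [map_zero]; rfl
  | .add s t => by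
    obtain ⟨h1, h2⟩ := eval_hom hb hv s
    obtain ⟨h3, h4⟩ := eval_hom hb hv t
    refine ⟨?_, ?_⟩
    · change (s.eval v).1 y + (t.eval v).1 y = 0
      rw [h1, h3, add_zero]
    · change s.eval _ + t.eval _ = _
      rw [h2, h4]
      change (((s.eval v).1 x + (t.eval v).1 x, b (s.eval v).2 + b (t.eval v).2) :
        ZMod p × ZMod p) = (((s.eval v).1 + (t.eval v).1) x, b ((s.eval v).2 + (t.eval v).2))
      rw [map_add b]; rfl
  | .neg s => by
    obtain ⟨h1, h2⟩ := eval_hom hb hv s
    refine ⟨?_, ?_⟩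
    · change - (s.eval v).1 y = 0
      rw [h1, neg_zero]
    · change - s.eval _ = _
      rw [h2]
      change ((-(s.eval v).1 x, - b (s.eval v).2) : ZMod p × ZMod p)
        = ((-(s.eval v).1) x, b (-(s.eval v).2))
      rw [map_neg b]; rfl
  | .mul s t => by
    obtain ⟨h1, h2⟩ := eval_hom hb hv s
    obtain ⟨h3, h4⟩ := eval_hom hb hv t
    refine ⟨rfl, ?_⟩
    change s.eval _ * t.eval _ = _
    rw [h2, h4]
    change (((0 : ZMod p), (s.eval v).1 x * (t.eval v).1 x) : ZMod p × ZMod p)
      = ((0 : E p m →ₗ[ZMod p] ZMod p) x, b (cls p m (s.eval v).1 (t.eval v).1))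
    rw [hb _ _ h1 h3]; rfl

/-- `R` satisfies the quasi-identities of `A_p` in fewer than `m` variables. -/
theorem holds_of_bounded (hp : p ≠ 2) (q : QuasiIdentity) (hq : q.bd < m)
    (hA : q.Holds (Nil p)) : q.Holds (R p m) := by
  classical
  intro v hprem
  have hfr : Module.finrank (ZMod p) (E p m) = m := GaloisField.finrank p (by omega)
  -- replace the irrelevant values by `0`
  let w : ℕ → R p m := fun n => if n < q.bd then v n else 0
  have hvw : ∀ n < q.bd, v n = w n := fun n hn => by simp [w, hn]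
  have hprem' : ∀ e ∈ q.prem, e.1.eval w = e.2.eval w := by
    intro e he
    rw [← Term.eval_congr hvw _ (q.le_bd e he).1, ← Term.eval_congr hvw _ (q.le_bd e he).2]
    exact hprem e he
  rw [Term.eval_congr hvw _ q.concl_le_bd.1, Term.eval_congr hvw _ q.concl_le_bd.2]
  -- a common zero
  let L : E p m →ₗ[ZMod p] (Fin q.bd → ZMod p) := LinearMap.pi (fun i => (v i).1)
  obtain ⟨y, hyk, hy0⟩ : ∃ y ∈ LinearMap.ker L, y ≠ 0 := by
    apply Submodule.exists_mem_ne_zero_of_ne_bot
    apply LinearMap.ker_ne_bot_of_finrank_lt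
    rw [hfr, Module.finrank_fin_fun]
    exact hq
  have hw : ∀ n, (w n).1 y = 0 := by
    intro n
    by_cases hn : n < q.bd
    · have h1 : w n = v n := (hvw n hn).symm
      rw [h1]
      have h2 : L y = 0 := hyk
      exact congrFun h2 ⟨n, hn⟩
    · have h1 : w n = 0 := by simp [w, hn]
      rw [h1]; rfl
  set r := q.concl.1.eval w with hr
  set s := q.concl.2.eval w with hs
  -- all partial homomorphisms agree on `r` and `s`
  have key : ∀ (x : E p m) (b : ((E p m → ZMod p) ⧸ K p m) →ₗ[ZMod p] ZMod p),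
      (∀ α β : E p m →ₗ[ZMod p] ZMod p, α y = 0 → β y = 0 → b (cls p m α β) = α x * β x) →
      r.1 x = s.1 x ∧ b r.2 = b s.2 := by
    intro x b hb
    have h1 := hA (fun n => pr x b (w n)) (by
      intro e he
      rw [(eval_hom hb hw e.1).2, (eval_hom hb hw e.2).2, hprem' e he])
    rw [(eval_hom hb hw q.concl.1).2, (eval_hom hb hw q.concl.2).2] at h1
    exact ⟨congrArg Prod.fst h1, congrArg Prod.snd h1⟩
  have hmemP : ∀ α β : E p m →ₗ[ZMod p] ZMod p, α y = 0 → β y = 0 →
      (fun x => α x * β x) ∈ P y := by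
    intro α β hα hβ x
    change α (x + y) * β (x + y) = α x * β x
    rw [map_add, map_add, hα, hβ, add_zero, add_zero]
  have hfun : ∀ x : E p m, ∃ b : ((E p m → ZMod p) ⧸ K p m) →ₗ[ZMod p] ZMod p,
      (∀ f ∈ P y, b ((K p m).mkQ f) = f x) ∧
      (∀ α β : E p m →ₗ[ZMod p] ZMod p, α y = 0 → β y = 0 → b (cls p m α β) = α x * β x) := by
    intro x
    obtain ⟨b, hb⟩ := exists_functional (p := p) (m := m) hp hy0 x
    exact ⟨b, hb, fun α β hα hβ => hb _ (hmemP α β hα hβ)⟩
  have h1 : r.1 = s.1 := by
    ext x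
    obtain ⟨b, -, hb⟩ := hfun x
    exact (key x b hb).1
  have h2 : r.2 = s.2 := by
    by_contra hne
    have hd : r.2 - s.2 ≠ 0 := sub_ne_zero.mpr hne
    by_cases hmem : r.2 - s.2 ∈ (P y).map (K p m).mkQ
    · obtain ⟨f, hf, hfd⟩ := hmem
      have hf0 : f ≠ 0 := by
        rintro rfl
        rw [map_zero] at hfd
        exact hd hfd.symm
      obtain ⟨x, hx⟩ := Function.ne_iff.mp hf0
      obtain ⟨b, hb1, hb2⟩ := hfun x
      have h3 := (key x b hb2).2
      have h4 : b (r.2 - s.2) = 0 := by rw [map_sub, h3, sub_self]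
      rw [← hfd, hb1 f hf] at h4
      exact hx h4
    · obtain ⟨b, hb1, hb2⟩ := Submodule.exists_le_ker_of_notMem hmem
      have h3 := (key 0 b (by
        intro α β hα hβ
        rw [map_zero, zero_mul]
        exact hb2 ⟨_, hmemP α β hα hβ, rfl⟩)).2
      apply hb1
      rw [map_sub, h3, sub_self]
  exact Prod.ext h1 h2

end Model

/-- `A_p` has no finite basis of quasi-identities. -/
theorem no_basis (p : ℕ) (hprime : p.Prime) (hp : p ≠ 2) : ¬ HasFiniteQuasiBasis (Nil p) := by
  classical
  have : Fact p.Prime := ⟨hprime⟩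
  rintro ⟨S, hfin, hS1, hS2⟩
  let N : ℕ := hfin.toFinset.sup QuasiIdentity.bd
  have hN : ∀ q ∈ S, q.bd < N + 2 := by
    intro q hq
    have : q.bd ≤ N := Finset.le_sup (f := QuasiIdentity.bd) (hfin.mem_toFinset.mpr hq)
    omega
  have hmodel : ∀ q ∈ S, q.Holds (R p (N + 2)) := fun q hq =>
    holds_of_bounded hp q (hN q hq) (hS1 q hq)
  obtain ⟨r0, s0, h0⟩ := exists_mul_ne_zero (p := p) (m := N + 2) hp (by omega)
  -- the diagram of `R`
  have : Fintype (R p (N + 2)) := Fintype.ofFinite _
  let e := Fintype.equivFin (R p (N + 2))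
  let code : R p (N + 2) → ℕ := fun r => (e r : ℕ)
  let q : QuasiIdentity :=
    { prem := (Finset.univ : Finset (R p (N + 2) × R p (N + 2))).toList.map
          (fun rs => (Term.add (Term.var (code rs.1)) (Term.var (code rs.2)),
            Term.var (code (rs.1 + rs.2)))) ++
        (Finset.univ : Finset (R p (N + 2) × R p (N + 2))).toList.map
          (fun rs => (Term.mul (Term.var (code rs.1)) (Term.var (code rs.2)),
            Term.var (code (rs.1 * rs.2))))
      concl := (Term.var (code (r0 * s0)), Term.zero) }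
  have hqA : q.Holds (Nil p) := by
    intro v hv
    have hadd : ∀ r s, v (code (r + s)) = v (code r) + v (code s) := by
      intro r s
      have := hv (Term.add (Term.var (code r)) (Term.var (code s)), Term.var (code (r + s))) (by
        refine List.mem_append_left _ ?_
        exact List.mem_map.mpr ⟨(r, s), Finset.mem_toList.mpr (Finset.mem_univ _), rfl⟩)
      exact this.symm
    have hmul : ∀ r s, v (code (r * s)) = v (code r) * v (code s) := by
      intro r s
      have := hv (Term.mul (Term.var (code r)) (Term.var (code s)), Term.var (code (r * s))) (by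
        refine List.mem_append_right _ ?_
        exact List.mem_map.mpr ⟨(r, s), Finset.mem_toList.mpr (Finset.mem_univ _), rfl⟩)
      exact this.symm
    exact hom_kills (fun r => v (code r)) hadd hmul r0 s0
  have hqR := hS2 q hqA (R p (N + 2)) hmodel
  -- but it fails in `R`
  let v : ℕ → R p (N + 2) := fun n =>
    if h : n < Fintype.card (R p (N + 2)) then e.symm ⟨n, h⟩ else 0
  have hv : ∀ r, v (code r) = r := by
    intro r
    have h : code r < Fintype.card (R p (N + 2)) := (e r).2
    simp only [v, h, dif_pos]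
    exact e.symm_apply_apply r
  apply h0
  have h1 := hqR v (by
    intro t ht
    rcases List.mem_append.mp ht with ht | ht
    · obtain ⟨⟨r, s⟩, -, rfl⟩ := List.mem_map.mp ht
      change v (code r) + v (code s) = v (code (r + s))
      rw [hv, hv, hv]
    · obtain ⟨⟨r, s⟩, -, rfl⟩ := List.mem_map.mp ht
      change v (code r) * v (code s) = v (code (r * s))
      rw [hv, hv, hv])
  change v (code (r0 * s0)) = 0 at h1
  rw [hv] at h1
  exact h1

theorem alternative (p : ℕ) : IsAlternative (Nil p) := by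
  intro x y
  rw [Nil.mul_mul_left, Nil.mul_mul_right, Nil.mul_mul_left, Nil.mul_mul_right]
  exact ⟨rfl, rfl⟩

theorem jordan (p : ℕ) : IsJordanRing (Nil p) := by
  intro x y
  refine ⟨Nil.mul_comm' p x y, ?_⟩
  rw [Nil.mul_mul_left, Nil.mul_mul_left]

theorem finite_nil (p : ℕ) [NeZero p] : Finite (Nil p) :=
  inferInstanceAs (Finite (ZMod p × ZMod p))

/-- **Both questions have a negative answer.** There is a finite alternative ring, and there is a
finite Jordan ring, without a finite basis of quasi-identities. In fact for every odd prime `p`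
the commutative associative ring `A_p` of order `p²` has no finite basis of quasi-identities. -/
theorem result :
    (∃ (A : Type) (_ : NonUnitalNonAssocRing A),
      Finite A ∧ IsAlternative A ∧ ¬ HasFiniteQuasiBasis A) ∧
    (∃ (A : Type) (_ : NonUnitalNonAssocRing A),
      Finite A ∧ IsJordanRing A ∧ ¬ HasFiniteQuasiBasis A) ∧
    (∀ p : ℕ, p.Prime → p ≠ 2 →
      Nat.card (Nil p) = p ^ 2 ∧
      (∀ a b : Nil p, a * b = b * a) ∧
      (∀ a b c : Nil p, (a * b) * c = a * (b * c)) ∧
      IsAlternative (Nil p) ∧ IsJordanRing (Nil p) ∧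
      ¬ HasFiniteQuasiBasis (Nil p)) := by
  have : NeZero 3 := ⟨by norm_num⟩
  refine ⟨⟨Nil 3, inferInstance, finite_nil 3, alternative 3, no_basis 3 (by norm_num)
    (by norm_num)⟩, ⟨Nil 3, inferInstance, finite_nil 3, jordan 3, no_basis 3 (by norm_num)
    (by norm_num)⟩, ?_⟩
  intro p hp h2
  refine ⟨?_, Nil.mul_comm' p, ?_, alternative p, jordan p, no_basis p hp h2⟩
  · change Nat.card (ZMod p × ZMod p) = p ^ 2
    rw [Nat.card_prod, Nat.card_zmod, sq]
  · intro a b c
    rw [Nil.mul_mul_left, Nil.mul_mul_right]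

end Pool.Agent.Results.MP_db5ef1_al.NoFiniteQuasiBasis
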